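import Pool.Agent.TH397.DB.Sq

/-!
# MP_bc6037_nt, case `k = 2` (Dirichlet divisor problem) at the perfect squares

`Δ(n²) = ∑_{j ≤ n²} d(j) - n² log n² - (2γ - 1) n²`.  The exponents `α₂, β₂` of the problem are
studied here on the sparse sequences `n²` (`n` an integer in a short interval) and `p²` (`p` prime):

* the mean square of `Δ` at these points has exactly the size predicted by `β₂ = 1/4`, with an
  asymptotic formula, already for the `n` in every interval `(k, k + N]` with `N ≥ k^{1/2+ε}`;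
* the mean of `Δ(n²)/√n` is the positive number `(1/2π) ∑ d(k²) k^{-3/2}`, the same along primes;
* `Δ(n²) > 0` holds for a proportion `d ∈ [0.862, 1)` of all `n`, in the same short intervals and
  along the primes.
-/

set_option autoImplicit false

open Filter Topology

namespace Pool.Agent.Results.MP_bc6037_nt.BiasAtSquares

/-- the error term `Δ = Δ₂` of the divisor problem at the point `n ^ 2` -/
noncomputable def DeltaSq (n : ℕ) : ℝ :=
  (∑ j ∈ Finset.Icc 1 (n ^ 2), (j.divisors.card : ℝ)) - (n : ℝ) ^ 2 * Real.log ((n : ℝ) ^ 2)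
    - (2 * Real.eulerMascheroniConstant - 1) * (n : ℝ) ^ 2

open Classical in
theorem result :
    (Summable (fun k : ℕ => ((k ^ 2).divisors.card : ℝ) * (k : ℝ) ^ (-(3 / 2) : ℝ)) ∧
      0 < ∑' k : ℕ, ((k ^ 2).divisors.card : ℝ) * (k : ℝ) ^ (-(3 / 2) : ℝ)) ∧
    ∃ d : ℝ, 431 / 500 ≤ d ∧ d < 1 ∧
    -- `Δ(n²) > 0` has density `d` in short intervals, and along the primes
    (∀ ε : ℝ, 0 < ε → ∀ η : ℝ, 0 < η → ∃ N₀ : ℕ, ∀ N : ℕ, N₀ ≤ N → ∀ k : ℕ,
      (k : ℝ) ^ (1 / 2 + ε) ≤ N →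
      |(((Finset.Ioc k (k + N)).filter (fun n : ℕ => 0 < DeltaSq n)).card : ℝ) / N - d| ≤ η) ∧
    Tendsto (fun N : ℕ => (((Finset.Icc 1 N).filter (fun p : ℕ => p.Prime ∧ 0 < DeltaSq p)).card : ℝ)
      / ((Finset.Icc 1 N).filter Nat.Prime).card) atTop (𝓝 d) ∧
    -- the mean of `Δ(n²)/√n`, over integers and over primes
    Tendsto (fun N : ℕ => (∑ n ∈ Finset.Icc 1 N, DeltaSq n / √(n : ℝ)) / N) atTop
      (𝓝 ((1 / (2 * Real.pi)) *
        ∑' k : ℕ, ((k ^ 2).divisors.card : ℝ) * (k : ℝ) ^ (-(3 / 2) : ℝ))) ∧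
    Tendsto (fun N : ℕ => (∑ p ∈ (Finset.Icc 1 N).filter Nat.Prime, DeltaSq p / √(p : ℝ))
      / ((Finset.Icc 1 N).filter Nat.Prime).card) atTop
      (𝓝 ((1 / (2 * Real.pi)) *
        ∑' k : ℕ, ((k ^ 2).divisors.card : ℝ) * (k : ℝ) ^ (-(3 / 2) : ℝ))) ∧
    -- the mean square, in short intervals and along the primes
    ∃ V : ℝ, 0 < V ∧
      (∀ ε : ℝ, 0 < ε → ∀ η : ℝ, 0 < η → ∃ N₀ : ℕ, ∀ N : ℕ, N₀ ≤ N → ∀ k : ℕ,
        (k : ℝ) ^ (1 / 2 + ε) ≤ N →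
        |(∑ n ∈ Finset.Ioc k (k + N), DeltaSq n ^ 2 / (n : ℝ)) / N - V| ≤ η) ∧
      Tendsto (fun N : ℕ => (∑ p ∈ (Finset.Icc 1 N).filter Nat.Prime, DeltaSq p ^ 2 / (p : ℝ))
        / ((Finset.Icc 1 N).filter Nat.Prime).card) atTop (𝓝 V) :=
  ⟨Pool.Agent.TH397.DB.series_pos, Pool.Agent.TH397.DB.bias⟩

end Pool.Agent.Results.MP_bc6037_nt.BiasAtSquares
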