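import Pool.Agent.TH535.PZ.P25

set_option autoImplicit false

/-! The mean square in the Piltz divisor problem: the lower bound with the exact expected constant on every
interval `[X, X + H]` with `X^θ ≤ H ≤ X`, `θ > 1 - 1/(2k)`, for every `k`. -/

namespace Pool.Agent.Results.MP_bc6037_nt.MeanSquareShortIntervals

/-- `d_k(n)`: the number of ordered `k`-tuples of positive integers with product `n` (and `0` for `n = 0`). -/
def dk (k n : ℕ) : ℕ := (Nat.finMulAntidiag k n).card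

/-- `Σ_{n ≤ x} d_k(n) - x P(log x)`. With `P = P_{k-1}` this is `Δ_k(x)`. -/
noncomputable def Rem (k : ℕ) (P : Polynomial ℝ) (x : ℝ) : ℝ :=
  (∑ n ∈ Finset.Icc 1 ⌊x⌋₊, (dk k n : ℝ)) - x * P.eval (Real.log x)

/-- `C_k = 1/((4k-2)π²) Σ d_k(n)² n^{-1-1/k}`. -/
noncomputable def Const (k : ℕ) : ℝ :=
  1 / ((4 * k - 2) * Real.pi ^ 2) * ∑' n : ℕ, (dk k n : ℝ) ^ 2 * (n : ℝ) ^ (-(1 + 1 / (k : ℝ)))

theorem result : ∀ k : ℕ, 2 ≤ k →
    Summable (fun n : ℕ => (dk k n : ℝ) ^ 2 * (n : ℝ) ^ (-(1 + 1 / (k : ℝ)))) ∧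
    ∀ P : Polynomial ℝ, P.natDegree < k → ∀ θ : ℝ, 1 - 1 / (2 * (k : ℝ)) < θ →
      ∀ c : ℝ, c < Const k →
        ∃ X0 : ℝ, 1 ≤ X0 ∧ ∀ X : ℝ, X0 ≤ X → ∀ H : ℝ, X ^ θ ≤ H → H ≤ X →
          c * ((X + H) ^ (2 - 1 / (k : ℝ)) - X ^ (2 - 1 / (k : ℝ))) ≤
            ∫ x in X..(X + H), Rem k P x ^ 2 := by
  intro k hk
  refine ⟨Pool.Agent.TH535.PZ.sum_conv (by omega), fun P hP θ hθ c hc => ?_⟩
  exact Pool.Agent.TH535.PZ.final3 (by omega) hP hθ hc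

end Pool.Agent.Results.MP_bc6037_nt.MeanSquareShortIntervals
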